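import Pool.Agent.P.MP_c7f95f_an.T.Final2

namespace Pool.Agent.Results.MP_c7f95f_an.ConstantMu

open MeasureTheory Metric Pool.Agent.P.MP_c7f95f_an

/-- Uniqueness fails on the unit ball for every nonzero constant `μ`: there are a bounded `c ≤ 0`
and `f` in every `L^m`, `m` finite, with two regular weak solutions `v < u`. -/
theorem result (N : ℕ) [NeZero N] (hN : 2 ≤ N) (s : ℝ) (hs : s ∈ Set.Ioo (1 / 2 : ℝ) 1)
    (lam : ℝ) (hlam : lam ≠ 0) (μ : ℝ) (hμ : μ ≠ 0) :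
    ∃ c f u v : Sp N → ℝ, MemLp c ⊤ (volume.restrict (ball 0 1)) ∧
      (∀ x, c x ≤ 0) ∧ (∀ m : ENNReal, m ≠ ⊤ → MemLp f m (volume.restrict (ball 0 1))) ∧
      IsRegularSol s (ball 0 1) (fun _ => μ) c f lam u ∧
      IsRegularSol s (ball 0 1) (fun _ => μ) c f lam v ∧ ∀ x ∈ ball (0 : Sp N) 1, v x < u x :=
  constant_mu hN hs hlam hμ

end Pool.Agent.Results.MP_c7f95f_an.ConstantMu
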