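import Pool.Agent.P.MP_c7f95f_an.T.Final1

namespace Pool.Agent.Results.MP_c7f95f_an.GivenC

open MeasureTheory Metric Pool.Agent.P.MP_c7f95f_an

/-- Uniqueness fails on the unit ball for every given bounded `c ≤ 0` with a bounded `μ ≥ μ₁`:
a function `u > 0` and `θ u` both solve the problem with datum `θ g`, where `λ g > 0`. -/
theorem result (N : ℕ) [NeZero N] (hN : 2 ≤ N) (s : ℝ) (hs : s ∈ Set.Ioo (1 / 2 : ℝ) 1)
    (lam : ℝ) (hlam : lam ≠ 0) (c : Sp N → ℝ) (hc : MemLp c ⊤ (volume.restrict (ball 0 1)))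
    (hc0 : ∀ᵐ x ∂(volume.restrict (ball (0 : Sp N) 1)), c x ≤ 0) (μ₁ θ : ℝ) (hθ : 0 ≤ θ) :
    ∃ μ g u : Sp N → ℝ, MemLp μ ⊤ (volume.restrict (ball 0 1)) ∧
      (∀ᵐ x ∂(volume.restrict (ball (0 : Sp N) 1)), μ₁ ≤ μ x) ∧
      (∀ m : ENNReal, m ≠ ⊤ → MemLp g m (volume.restrict (ball 0 1))) ∧
      (∀ᵐ x ∂(volume.restrict (ball (0 : Sp N) 1)), 0 < lam * g x) ∧
      (∀ x ∈ ball (0 : Sp N) 1, 0 < u x) ∧
      IsRegularSol s (ball 0 1) μ c (fun x => θ * g x) lam u ∧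
      IsRegularSol s (ball 0 1) μ c (fun x => θ * g x) lam (fun x => θ * u x) :=
  natural hN hs hlam hc hc0 μ₁ hθ

end Pool.Agent.Results.MP_c7f95f_an.GivenC
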