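import Pool.Agent.P.MP_c7f95f_an.Main

namespace Pool.Agent.Results.MP_c7f95f_an.NonUnique

open MeasureTheory Pool.Agent.P.MP_c7f95f_an

/-- Uniqueness fails: on every bounded nonempty open set with null boundary, for every bounded `c`
and every `λ`, there is a bounded `μ` such that the problem with `f = 0` has a regular weak solution
`u` which is not a.e. zero, next to the regular weak solution `0`. -/
theorem result (N : ℕ) [NeZero N] (hN : 2 ≤ N) (s : ℝ) (hs : s ∈ Set.Ioo (1 / 2 : ℝ) 1)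
    (Ω : Set (Sp N)) (hopen : IsOpen Ω) (hbdd : Bornology.IsBounded Ω) (hne : Ω.Nonempty)
    (hnull : volume (frontier Ω) = 0) (c : Sp N → ℝ) (hc : MemLp c ⊤ (volume.restrict Ω))
    (lam : ℝ) :
    ∃ μ u : Sp N → ℝ, MemLp μ ⊤ (volume.restrict Ω) ∧ IsRegularSol s Ω μ c 0 lam u ∧
      IsRegularSol s Ω μ c 0 lam 0 ∧ ¬ u =ᵐ[volume.restrict Ω] 0 :=
  main hN hs hopen hbdd hne hnull hc lam

end Pool.Agent.Results.MP_c7f95f_an.NonUnique
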