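import Pool.Agent.P.MP_c7f95f_an.Pos2

namespace Pool.Agent.Results.MP_c7f95f_an.PositiveMu

open MeasureTheory Pool.Agent.P.MP_c7f95f_an

/-- Uniqueness fails even if `μ ≥ μ₁ > 0`, `c ≤ -κ ≤ 0`, `λ > 0` and `f⁺` is not zero: on every
bounded nonempty open set with null boundary there are bounded `μ`, `c`, `f` with these properties
for which the problem has two regular weak solutions that are not a.e. equal. -/
theorem result (N : ℕ) [NeZero N] (hN : 2 ≤ N) (s : ℝ) (hs : s ∈ Set.Ioo (1 / 2 : ℝ) 1)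
    (Ω : Set (Sp N)) (hopen : IsOpen Ω) (hbdd : Bornology.IsBounded Ω) (hne : Ω.Nonempty)
    (hnull : volume (frontier Ω) = 0) (μ₁ κ lam : ℝ) (hμ₁ : 0 < μ₁) (hκ : 0 ≤ κ) (hlam : 0 < lam) :
    ∃ μ c f u₁ u₂ : Sp N → ℝ, MemLp μ ⊤ (volume.restrict Ω) ∧ MemLp c ⊤ (volume.restrict Ω) ∧
      MemLp f ⊤ (volume.restrict Ω) ∧ (∀ x ∈ Ω, μ₁ ≤ μ x) ∧ (∀ x ∈ Ω, c x ≤ -κ) ∧
      ¬ f ≤ᵐ[volume.restrict Ω] 0 ∧ IsRegularSol s Ω μ c f lam u₁ ∧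
      IsRegularSol s Ω μ c f lam u₂ ∧ ¬ u₁ =ᵐ[volume.restrict Ω] u₂ :=
  main_pos hN hs hopen hbdd hne hnull hμ₁ hκ hlam

end Pool.Agent.Results.MP_c7f95f_an.PositiveMu
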